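import Mathlib

namespace Pool.Agent.Results.MP_9e0f03_co.Yes

open Filter Topology

/-- Permutations of length `n`. -/
abbrev P (n : ℕ) := Equiv.Perm (Fin n)

/-- Some subsequence of `π` is order-isomorphic to `σ`. -/
def Contains {n k : ℕ} (π : P n) (σ : P k) : Prop :=
  ∃ f : Fin k → Fin n, StrictMono f ∧ ∀ i j, σ i < σ j ↔ π (f i) < π (f j)

/-- `π = σ ⊕ τ`. -/
def IsSum {n k m : ℕ} (π : P n) (σ : P k) (τ : P m) : Prop :=
  n = k + m ∧ (∀ (i : Fin k) (j : Fin n), j.1 = i.1 → (π j).1 = (σ i).1) ∧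
    ∀ (i : Fin m) (j : Fin n), j.1 = k + i.1 → (π j).1 = k + (τ i).1

def IsClass (C : ∀ n, Set (P n)) : Prop :=
  ∀ n k (π : P n) (σ : P k), π ∈ C n → Contains π σ → σ ∈ C k

def SumClosed (C : ∀ n, Set (P n)) : Prop :=
  ∀ n k m (π : P n) (σ : P k) (τ : P m), σ ∈ C k → τ ∈ C m → IsSum π σ τ → π ∈ C n

def Indec {n : ℕ} (π : P n) : Prop :=
  ¬ ∃ (k m : ℕ) (σ : P k) (τ : P m), 0 < k ∧ 0 < m ∧ IsSum π σ τ

/-- The indecomposable members of `C`. -/
def ind (C : ∀ n, Set (P n)) : ∀ n, Set (P n) := fun n => {π | π ∈ C n ∧ Indec π}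

/-- The upper growth rate. -/
noncomputable def ugr (X : ∀ n, Set (P n)) : ℝ :=
  limsup (fun n : ℕ => ((X n).ncard : ℝ) ^ ((1 : ℝ) / n)) atTop

def om (x : ℕ) : ℕ := if x % 5 = 2 ∨ x % 5 = 4 then x - 2 else x + 3

def Pat {n : ℕ} (π : P n) (f : Fin n → ℕ) : Prop :=
  StrictMono f ∧ ∀ i j, π i < π j ↔ om (f i) < om (f j)

def C (n : ℕ) : Set (P n) := {π | ∃ f, Pat π f}

theorem cls : IsClass C := by
  rintro n k π σ ⟨f, f1, f2⟩ ⟨g, g1, g2⟩
  exact ⟨f ∘ g, f1.comp g1, fun i j => (g2 i j).trans (f2 _ _)⟩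

theorem sumc : SumClosed C := by
  rintro n k m π σ τ ⟨f, f1, f2⟩ ⟨g, g1, g2⟩ ⟨rfl, h1, h2⟩
  obtain ⟨N, hN⟩ : ∃ N, ∀ i, f i < N :=
    ⟨Finset.univ.sup f + 1, fun i => Nat.lt_succ_of_le (Finset.le_sup (Finset.mem_univ i))⟩
  have o1 : ∀ x, om (x + 5 * (N + 1)) = om x + 5 * (N + 1) := by
    intro x; unfold om; split_ifs <;> omega
  have o2 : ∀ i, om (f i) < 5 * (N + 1) := by
    intro i; have := hN i; unfold om; split_ifs <;> omega
  have a1 : ∀ i, (π (Fin.castAdd m i)).1 = (σ i).1 := fun i => h1 i _ rfl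
  have a2 : ∀ i, (π (Fin.natAdd k i)).1 = k + (τ i).1 := fun i => h2 i _ rfl
  refine ⟨Fin.append f fun i => g i + 5 * (N + 1), fun i j => ?_, fun i j => ?_⟩
  · induction i using Fin.addCases <;> induction j using Fin.addCases <;> rename_i i j <;>
      simp only [Fin.append_left, Fin.append_right, Fin.lt_def, Fin.val_castAdd, Fin.val_natAdd]
    · exact fun h => f1 h
    · have := hN i; omega
    · have := j.2; omega
    · intro h
      have := g1 (show i < j by rw [Fin.lt_def]; omega)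
      omega
  · induction i using Fin.addCases <;> induction j using Fin.addCases <;> rename_i i j <;>
      simp only [Fin.append_left, Fin.append_right, Fin.lt_def, a1, a2, o1]
    · exact f2 i j
    · have := o2 i; have := (σ i).2; omega
    · have := o2 j; have := (σ j).2; omega
    · have := g2 i j
      rw [Fin.lt_def] at this
      omega

theorem indec_iff {n : ℕ} (π : P n) :
    Indec π ↔ ∀ k, 0 < k → k < n → ∃ i j : Fin n, i.1 < k ∧ k ≤ j.1 ∧ π j < π i := by
  constructor
  · intro h k h0 hk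
    by_contra hc
    push Not at hc
    obtain ⟨m, rfl⟩ : ∃ m, n = k + m := ⟨n - k, by omega⟩
    have hlt : ∀ i j : Fin (k + m), i.1 < k → k ≤ j.1 → π i < π j := fun i j a b =>
      lt_of_le_of_ne (hc i j a b) (π.injective.ne (by rintro rfl; omega))
    have b1 : ∀ i : Fin k, (π (Fin.castAdd m i)).1 < k := by
      intro i
      have := Finset.card_le_card_of_injOn (s := Finset.univ) (t := Finset.Ioi (π (Fin.castAdd m i)))
        (fun j : Fin m => π (Fin.natAdd k j))
        (fun j _ => by simpa using hlt _ _ (by simp) (by simp))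
        (fun a _ b _ e => by simpa using e)
      have := (π (Fin.castAdd m i)).2
      simp at *
      omega
    have b2 : ∀ j : Fin m, k ≤ (π (Fin.natAdd k j)).1 := by
      intro j
      have := Finset.card_le_card_of_injOn (s := Finset.univ) (t := Finset.Iio (π (Fin.natAdd k j)))
        (fun i : Fin k => π (Fin.castAdd m i))
        (fun i _ => by simpa using hlt _ _ (by simp) (by simp))
        (fun a _ b _ e => by simpa using e)
      simpa using this
    let s : Fin k → Fin k := fun i => ⟨_, b1 i⟩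
    let t : Fin m → Fin m := fun j => ⟨(π (Fin.natAdd k j)).1 - k, by
      have := (π (Fin.natAdd k j)).2; have := b2 j; omega⟩
    have hs : Function.Injective s := fun a b e => by
      have e1 : (s a).1 = (s b).1 := congrArg Fin.val e
      have : π (Fin.castAdd m a) = π (Fin.castAdd m b) := Fin.ext e1
      simpa using this
    have ht : Function.Injective t := fun a b e => by
      have e1 : (π (Fin.natAdd k a)).1 - k = (π (Fin.natAdd k b)).1 - k := congrArg Fin.val e
      have := b2 a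
      have := b2 b
      have := Fin.ext (show (π (Fin.natAdd k a)).1 = (π (Fin.natAdd k b)).1 by omega)
      simpa using this
    refine h ⟨k, m, Equiv.ofBijective s (Finite.injective_iff_bijective.1 hs),
      Equiv.ofBijective t (Finite.injective_iff_bijective.1 ht), h0, by omega, rfl,
      fun i j e => ?_, fun i j e => ?_⟩
    · obtain rfl : j = Fin.castAdd m i := Fin.ext e
      rfl
    · obtain rfl : j = Fin.natAdd k i := Fin.ext e
      have := b2 i
      simp only [Equiv.ofBijective_apply, t]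
      omega
  · rintro h ⟨k, m, σ, τ, h0, h1, rfl, h2, h3⟩
    obtain ⟨i, j, a, b, c⟩ := h k h0 (by omega)
    have := h2 ⟨i, a⟩ i rfl
    have := h3 ⟨j - k, by omega⟩ j (by simp; omega)
    have := (σ ⟨i, a⟩).2
    rw [Fin.lt_def] at c
    omega

theorem pat_uniq {n : ℕ} {π ρ : P n} {f : Fin n → ℕ} (h1 : Pat π f) (h2 : Pat ρ f) : π = ρ := by
  have h : StrictMono fun i => ρ (π.symm i) := fun i j hij =>
    (h2.2 _ _).2 ((h1.2 _ _).1 (by simpa using hij))
  have h' : (fun i => ρ (π.symm i)) = id := (h.range_inj strictMono_id).1 (by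
    rw [Set.range_id]
    exact (ρ.surjective.comp π.symm.surjective).range_eq)
  ext i
  have := congrFun h' (π i)
  simp at this
  rw [this]

def forced (q : ℕ) : Finset ℕ := (Finset.range (3 * q)).image fun t => 12 + 5 * (t / 3) + t % 3

theorem forced_card (q : ℕ) : (forced q).card = 3 * q := by
  rw [forced, Finset.card_image_of_injective, Finset.card_range]
  intro a b h
  simp only at h
  omega

theorem struct {n : ℕ} (π : P (n + 1)) (h : π ∈ ind C (n + 1)) : ∃ f, Pat π f ∧ ∃ q,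
    forced q ⊆ Finset.univ.image f ∧ Finset.univ.image f ⊆ Finset.range (5 * q + 25) := by
  obtain ⟨⟨g, g1, g2⟩, hi⟩ := h
  have g0 : ∀ i, g 0 ≤ g i := fun i => g1.monotone (Fin.zero_le i)
  obtain ⟨f, hf⟩ : ∃ f : Fin (n + 1) → ℕ, ∀ i, f i = g i + 5 - 5 * (g 0 / 5) := ⟨_, fun _ => rfl⟩
  have o : ∀ i, om (f i) + 5 * (g 0 / 5) = om (g i) + 5 := by
    intro i; have := g0 i; have := hf i; unfold om; split_ifs <;> omega
  have f1 : StrictMono f := fun i j hij => by
    have := g1 hij; have := g0 i; have := hf i; have := hf j; omega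
  have f2 : ∀ i j, π i < π j ↔ om (f i) < om (f j) := fun i j => by
    have := o i; have := o j; rw [g2]; omega
  have f0 : f 0 < 10 := by have := hf 0; omega
  refine ⟨f, ⟨f1, f2⟩, (f (Fin.last n) - 20) / 5, fun x hx => ?_, fun x hx => ?_⟩
  · obtain ⟨t, ht, rfl⟩ := Finset.mem_image.1 hx
    rw [Finset.mem_range] at ht
    by_contra hx'
    have hne : ∀ i, f i ≠ 12 + 5 * (t / 3) + t % 3 := fun i e =>
      hx' (Finset.mem_image.2 ⟨i, Finset.mem_univ _, e⟩)
    obtain ⟨c, hc⟩ : ∃ c, c = 10 + 5 * (t / 3) + (if t % 3 = 0 then 0 else if t % 3 = 1 then 5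
      else 3) := ⟨_, rfl⟩
    have hex : ∃ k, ∃ h : k < n + 1, c ≤ f ⟨k, h⟩ :=
      ⟨n, by omega, by change c ≤ f (Fin.last n); split_ifs at hc <;> omega⟩
    obtain ⟨k1, k2⟩ := Nat.find_spec hex
    obtain ⟨i, j, a, b, d⟩ := (indec_iff π).1 hi (Nat.find hex) (by
      rw [Nat.find_pos]
      rintro ⟨h, h'⟩
      change c ≤ f 0 at h'
      omega) k1
    have e1 : f i < c := by
      by_contra e
      exact Nat.find_min hex a ⟨i.2, not_lt.1 e⟩
    have e2 : c ≤ f j := k2.trans (f1.monotone b)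
    have e3 := (f2 j i).1 d
    have := hne i
    have := hne j
    unfold om at e3
    split_ifs at e3 hc <;> omega
  · obtain ⟨i, -, rfl⟩ := Finset.mem_image.1 hx
    have := f1.monotone (Fin.le_last i)
    rw [Finset.mem_range]
    omega

theorem upper (n : ℕ) : (ind C (n + 1)).ncard ≤ (n + 2) * 2 ^ (2 * ((n + 1) / 3) + 25) := by
  classical
  choose f f1 q q1 q2 using @struct n
  let T := (Finset.range ((n + 1) / 3 + 1)).biUnion fun q =>
    Finset.Icc (forced q) (Finset.range (5 * q + 25))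
  have h1 : (ind C (n + 1)).ncard ≤ T.card := by
    rw [← Set.ncard_coe_finset]
    refine Set.ncard_le_ncard_of_injOn
      (fun π => if h : π ∈ ind C (n + 1) then Finset.univ.image (f π h) else ∅)
      (fun π h => ?_) (fun π h ρ h' e => ?_)
    · have := Finset.card_le_card (q1 π h)
      rw [forced_card, Finset.card_image_of_injective _ (f1 π h).1.injective] at this
      simp only [dif_pos h, T, Finset.mem_coe, Finset.mem_biUnion, Finset.mem_range,
        Finset.mem_Icc]
      simp only [Finset.card_univ, Fintype.card_fin] at this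
      exact ⟨q π h, by omega, q1 π h, q2 π h⟩
    · simp only [dif_pos h, dif_pos h'] at e
      have : f π h = f ρ h' := ((f1 π h).1.range_inj (f1 ρ h').1).1 (by
        have := congrArg (fun s : Finset ℕ => (s : Set ℕ)) e
        simpa using this)
      exact pat_uniq (f1 π h) (this ▸ f1 ρ h')
  refine h1.trans ((Finset.card_biUnion_le_card_mul _ _ (2 ^ (2 * ((n + 1) / 3) + 25))
    fun q hq => ?_).trans (Nat.mul_le_mul_right _ (by simp; omega)))
  rw [Finset.mem_range] at hq
  rw [Finset.card_Icc_finset, forced_card, Finset.card_range]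
  · exact Nat.pow_le_pow_right (by norm_num) (by omega)
  · intro x hx
    obtain ⟨t, ht, rfl⟩ := Finset.mem_image.1 hx
    rw [Finset.mem_range] at ht ⊢
    omega

theorem om_inj : Function.Injective om := by
  intro a b h
  unfold om at h
  split_ifs at h <;> omega

theorem ex_pat {n : ℕ} (f : Fin n → ℕ) (hf : StrictMono f) : ∃ π : P n, Pat π f := by
  have h : StrictMono ((om ∘ f) ∘ Tuple.sort (om ∘ f)) :=
    (Tuple.monotone_sort _).strictMono_of_injective
      ((om_inj.comp hf.injective).comp (Equiv.injective _))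
  refine ⟨(Tuple.sort (om ∘ f)).symm, hf, fun i j => ?_⟩
  rw [← h.lt_iff_lt]
  simp

def F (w : ℕ → Bool) (i : ℕ) : ℕ :=
  10 * (i / 9) + i % 9 + if (if w (i / 9) then 1 else 6) ≤ i % 9 then 1 else 0

theorem F_mono (w : ℕ → Bool) : StrictMono (F w) := by
  refine strictMono_nat_of_lt_succ fun i => ?_
  unfold F
  by_cases h : (i + 1) / 9 = i / 9
  · rw [h]; split_ifs <;> omega
  · split_ifs <;> omega

theorem F_surj (w : ℕ → Bool) (j y : ℕ) (h : y < 10 * j) (h5 : y % 5 ≠ 1) :
    ∃ i < 9 * j, F w i = y := by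
  have e : ∀ r < 9, (9 * (y / 10) + r) / 9 = y / 10 ∧ (9 * (y / 10) + r) % 9 = r := by
    intro r hr; omega
  by_cases hw : (if w (y / 10) then 1 else 6) ≤ y % 10
  · refine ⟨9 * (y / 10) + (y % 10 - 1), by omega, ?_⟩
    unfold F
    rw [(e _ (by omega)).1, (e _ (by omega)).2]
    split_ifs at hw ⊢ <;> omega
  · refine ⟨9 * (y / 10) + y % 10, by split_ifs at hw <;> omega, ?_⟩
    unfold F
    rw [(e _ (by split_ifs at hw <;> omega)).1, (e _ (by split_ifs at hw <;> omega)).2, if_neg hw]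
    omega

theorem lower (j : ℕ) : 2 ^ j ≤ (ind C (9 * j)).ncard := by
  let W : (Fin j → Bool) → ℕ → Bool := fun w t => if h : t < j then w ⟨t, h⟩ else false
  have hm : ∀ w, StrictMono fun i : Fin (9 * j) => F (W w) i := fun w a b h => F_mono _ h
  choose π hπ using fun w => ex_pat _ (hm w)
  have h1 : ∀ w, π w ∈ ind C (9 * j) := by
    intro w
    refine ⟨⟨_, hπ w⟩, (indec_iff _).2 fun k h0 hk => ?_⟩
    have c0 : 0 < F (W w) k := (Nat.zero_le _).trans_lt (F_mono _ h0)
    have c1 : F (W w) k < 10 * j := by unfold F; split_ifs <;> omega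
    obtain ⟨y, z, a1, a2, a3, a4, a5, a6⟩ : ∃ y z, y < F (W w) k ∧ F (W w) k ≤ z ∧ z < 10 * j ∧
        y % 5 ≠ 1 ∧ z % 5 ≠ 1 ∧ om z < om y := by
      generalize F (W w) k = c at c0 c1
      by_cases h : c % 5 = 0
      · exact ⟨c - 2, c + 2, by omega, by omega, by omega, by omega, by omega, by
          unfold om; split_ifs <;> omega⟩
      · exact ⟨c - c % 5, c - c % 5 + 4, by omega, by omega, by omega, by omega, by omega, by
          unfold om; split_ifs <;> omega⟩
    obtain ⟨i1, b1, rfl⟩ := F_surj (W w) j y (by omega) a4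
    obtain ⟨i2, b2, rfl⟩ := F_surj (W w) j z a3 a5
    exact ⟨⟨i1, b1⟩, ⟨i2, b2⟩, (F_mono _).lt_iff_lt.1 a1, (F_mono _).le_iff_le.1 a2,
      ((hπ w).2 _ _).2 a6⟩
  have h2 : ∀ w (t : Fin j), (w t = true ↔
      π w ⟨9 * t + 1, by omega⟩ < π w ⟨9 * t, by omega⟩) := by
    intro w t
    rw [(hπ w).2]
    have e1 : (9 * t.1 + 1) / 9 = t := by omega
    have e2 : (9 * t.1) / 9 = t := by omega
    have e3 : W w t = w t := by simp [W]
    simp only [F, e1, e2, e3, om]
    cases w t <;> simp <;> split_ifs <;> omega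
  have h3 : Function.Injective π := by
    intro w v e
    funext t
    have := h2 w t
    rw [e, ← h2 v t] at this
    exact Bool.eq_iff_iff.2 this
  have := Set.ncard_le_ncard_of_injOn (s := Set.univ) (t := ind C (9 * j)) π (fun w _ => h1 w)
    h3.injOn
  simpa [Set.ncard_univ] using this

theorem ev : ∀ᶠ n : ℕ in atTop, ((ind C n).ncard : ℝ) ^ ((1 : ℝ) / n) ≤ 8 / 5 := by
  have h := (tendsto_pow_const_div_const_pow_of_one_lt 3 (r := 128 / 125) (by norm_num)).eventually
    (gt_mem_nhds (show (0 : ℝ) < 1 / 2 ^ 78 by positivity))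
  filter_upwards [h, eventually_ge_atTop 1] with n h1 h2
  obtain ⟨m, rfl⟩ : ∃ m, n = m + 1 := ⟨n - 1, by omega⟩
  have h3 : (ind C (m + 1)).ncard ^ 3 ≤ 2 ^ 78 * (m + 1) ^ 3 * 4 ^ (m + 1) := by
    refine (Nat.pow_le_pow_left (upper m) 3).trans ?_
    have a1 : (m + 2) ^ 3 ≤ (2 * (m + 1)) ^ 3 := Nat.pow_le_pow_left (by omega) 3
    have a2 : (2 ^ (2 * ((m + 1) / 3) + 25)) ^ 3 ≤ 2 ^ (75 + 2 * (m + 1)) := by
      rw [← pow_mul]
      exact Nat.pow_le_pow_right (by norm_num) (by omega)
    rw [mul_pow]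
    refine (Nat.mul_le_mul a1 a2).trans (le_of_eq ?_)
    rw [pow_add, pow_mul]
    ring
  have h4 : ((ind C (m + 1)).ncard : ℝ) ^ 3 ≤ ((8 / 5 : ℝ) ^ (m + 1)) ^ 3 := by
    have b1 : ((ind C (m + 1)).ncard : ℝ) ^ 3 ≤ 2 ^ 78 * ((m + 1 : ℕ) : ℝ) ^ 3 * 4 ^ (m + 1) := by
      exact_mod_cast h3
    have b2 : ((8 / 5 : ℝ) ^ (m + 1)) ^ 3 = (128 / 125) ^ (m + 1) * 4 ^ (m + 1) := by
      rw [← pow_mul, mul_comm, pow_mul, ← mul_pow]
      norm_num
    rw [div_lt_div_iff₀ (by positivity) (by positivity)] at h1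
    rw [b2]
    exact b1.trans (mul_le_mul_of_nonneg_right (by linarith) (by positivity))
  have h5 := le_of_pow_le_pow_left₀ (by norm_num) (by positivity) h4
  rw [one_div]
  refine (Real.rpow_le_rpow (by positivity) h5 (by positivity)).trans (le_of_eq ?_)
  exact Real.pow_rpow_inv_natCast (by norm_num) (by omega)

theorem result : ∃ C : ∀ n, Set (P n), IsClass C ∧ SumClosed C ∧
    1 < ugr (ind C) ∧ ugr (ind C) < (1 + √5) / 2 := by
  refine ⟨C, cls, sumc, ?_, ?_⟩
  · refine (Real.one_lt_rpow (show (1 : ℝ) < 2 by norm_num)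
      (show (0 : ℝ) < 1 / 9 by norm_num)).trans_le
      (le_limsup_of_frequently_le ?_ ⟨8 / 5, ev⟩)
    rw [frequently_atTop]
    intro a
    refine ⟨9 * (a + 1), by omega, ?_⟩
    have h : (2 : ℝ) ^ (a + 1) ≤ (ind C (9 * (a + 1))).ncard := by exact_mod_cast lower (a + 1)
    refine le_trans (le_of_eq ?_) (Real.rpow_le_rpow (by positivity) h (by positivity))
    rw [← Real.rpow_natCast, ← Real.rpow_mul (by norm_num)]
    congr 1
    push_cast
    field_simp
  · refine (limsup_le_of_le (isCoboundedUnder_le_of_le (x := 0) _ fun n => by positivity)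
      ev).trans_lt ?_
    have : (11 / 5 : ℝ) < √5 := Real.lt_sqrt_of_sq_lt (by norm_num)
    linarith

end Pool.Agent.Results.MP_9e0f03_co.Yes
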